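import Pool.Agent.Helper77.RL.Goals

/-!
# Project RL (MP_fc6b1e_nt): L_TOR, the torsion in case (B)
-/

namespace Pool.Agent.Helper99.RL

open NumberField Polynomial Module IsDedekindDomain Pool.Agent.Helper51.SigLeo
open Pool.Agent.Helper51.RP Pool.Agent.Helper77.RL

section emb

variable {k : Type} [NormedField k] [CharZero k]

/-- Every embedding of a number field in `k` factors through the algebraic numbers of `k`. -/
theorem factor_emb (ρ : AlgebraicClosure ℚ →+* k) {K : Type} [Field K] [NumberField K]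
    (σ : K →+* k) : ∃ σ₀ : K →+* AlgebraicClosure ℚ, ρ.comp σ₀ = σ := by
  classical
  have hinj : Function.Injective (fun σ₀ : K →+* AlgebraicClosure ℚ => ρ.comp σ₀) := by
    intro a b hab
    ext x
    exact ρ.injective (DFunLike.congr_fun hab x)
  have hcard : Fintype.card (K →+* k) ≤ Fintype.card (K →+* AlgebraicClosure ℚ) := by
    rw [NumberField.Embeddings.card K (AlgebraicClosure ℚ)]
    rw [Fintype.card_congr (RingHom.equivRatAlgHom (R := K) (S := k))]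
    rw [← Nat.card_eq_fintype_card]
    exact card_algHom_le_finrank ℚ K k
  have hb := (Fintype.bijective_iff_injective_and_card _).2
    ⟨hinj, le_antisymm (Fintype.card_le_of_injective _ hinj) hcard⟩
  exact hb.2 σ

/-- Extension of an embedding to an algebraic closure. -/
theorem extend_closure (ρ : AlgebraicClosure ℚ →+* k) {M Ω : Type} [Field M] [NumberField M]
    [Field Ω] [Algebra M Ω] [IsAlgClosure M Ω] (σ : M →+* k) :
    ∃ τ : Ω →+* k, τ.comp (algebraMap M Ω) = σ := by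
  obtain ⟨σ₀, hσ₀⟩ := factor_emb ρ σ
  let _ : Algebra M (AlgebraicClosure ℚ) := σ₀.toAlgebra
  have halg : Algebra.IsAlgebraic M Ω := IsAlgClosure.isAlgebraic
  let τ₀ : Ω →ₐ[M] AlgebraicClosure ℚ := IsAlgClosed.lift
  refine ⟨ρ.comp τ₀.toRingHom, ?_⟩
  rw [← hσ₀]
  ext x
  change ρ (τ₀ (algebraMap M Ω x)) = ρ (σ₀ x)
  rw [τ₀.commutes]
  rfl

end emb

section small

variable {p : ℕ} {k : Type} [NormedField k]

theorem L_one (L : IwasawaLog p k) : L.toFun 1 = 0 := by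
  have h := L.map_mul 1 1
  rw [mul_one] at h
  simpa using h

theorem L_inv (L : IwasawaLog p k) (u : kˣ) : L.toFun u⁻¹ = -L.toFun u := by
  have h := L.map_mul u u⁻¹
  rw [mul_inv_cancel, L_one] at h
  exact eq_neg_of_add_eq_zero_right h.symm

theorem L_pow (L : IwasawaLog p k) (u : kˣ) (n : ℕ) : L.toFun (u ^ n) = n * L.toFun u := by
  induction n with
  | zero => simp [L_one]
  | succ n ih => rw [pow_succ, L.map_mul, ih]; push_cast; ring

variable {M : Type} [Field M]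

/-- The elements whose images are units with small logarithms. -/
def SS [IsUltrametricDist k] (L : IwasawaLog p k) (T : Set (M →+* k)) (N : ℕ) : Subgroup Mˣ where
  carrier := {z | SigSmall L T N z}
  one_mem' := by
    intro τ _
    rw [map_one, L_one]
    simp
  mul_mem' := by
    intro a b ha hb τ hτ
    obtain ⟨h1, h2⟩ := ha τ hτ
    obtain ⟨h3, h4⟩ := hb τ hτ
    refine ⟨?_, ?_⟩
    · rw [Units.val_mul, map_mul, norm_mul, h1, h3, mul_one]
    · rw [map_mul, L.map_mul]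
      exact (IsUltrametricDist.norm_add_le_max _ _).trans (max_le h2 h4)
  inv_mem' := by
    intro a ha τ hτ
    obtain ⟨h1, h2⟩ := ha τ hτ
    refine ⟨?_, ?_⟩
    · rw [Units.val_inv_eq_inv_val, map_inv₀, norm_inv, h1, inv_one]
    · rw [map_inv, L_inv, norm_neg]
      exact h2

theorem mem_SS [IsUltrametricDist k] {L : IwasawaLog p k} {T : Set (M →+* k)} {N : ℕ} {z : Mˣ} :
    z ∈ SS L T N ↔ SigSmall L T N z := Iff.rfl

theorem SS_map [IsUltrametricDist k] {L : IwasawaLog p k} {T : Set (M →+* k)} {N : ℕ} {z : Mˣ}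
    (f : M →+* M) (hf : ∀ τ ∈ T, τ.comp f ∈ T) (hz : z ∈ SS L T N) :
    Units.map (f : M →* M) z ∈ SS L T N := by
  intro τ hτ
  exact hz _ (hf τ hτ)

theorem SS_act [IsUltrametricDist k] {K : Type} [Field K] [Algebra K M] {L : IwasawaLog p k}
    {T : Set (M →+* k)} {N : ℕ} {δ : M ≃ₐ[K] M} (hδ : ∀ τ ∈ T, τ.comp (δ : M →+* M) ∈ T)
    (A : ℤ[X]) : ∀ {z : Mˣ}, z ∈ SS L T N → act δ A z ∈ SS L T N := by
  induction A using Polynomial.induction_on' with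
  | add A B hA hB =>
    intro z hz
    rw [act_add]
    exact mul_mem (hA hz) (hB hz)
  | monomial n a =>
    intro z hz
    rw [← C_mul_X_pow_eq_monomial, act_mul, act_C]
    refine zpow_mem ?_ a
    induction n with
    | zero => rw [pow_zero, act_one]; exact hz
    | succ n ih =>
      rw [pow_succ', act_mul, act_X]
      exact SS_map _ hδ ih

end small

/-- Steps: `s(Z)/Z^i` for the images of elements of `M'`. -/
theorem step {K M Ω : Type} [Field K] [Field M] [Algebra K M] [Field Ω] [Algebra M Ω]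
    (δ : M ≃ₐ[K] M) (s : Ω →+* Ω) (r i : ℕ)
    (hs : ∀ x : M, s (algebraMap M Ω x) = algebraMap M Ω ((δ ^ r) x)) (A : ℤ[X]) (q : ℕ) (z : Mˣ) :
    algebraMap M Ω ((act δ ((X ^ r - C (i : ℤ)) * A) z : Mˣ) ^ q : M) =
      s (algebraMap M Ω ((act δ A z : Mˣ) ^ q : M)) / algebraMap M Ω ((act δ A z : Mˣ) ^ q : M) ^ i := by
  rw [hs, act_mul, act_sub, act_X_pow, act_C, zpow_natCast]
  rw [← map_pow (algebraMap M Ω), ← map_div₀ (algebraMap M Ω)]
  congr 1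
  rw [Units.val_div_eq_div_val, Units.coe_map, Units.val_pow_eq_pow_val, div_pow,
    map_pow (δ ^ r : M ≃ₐ[K] M)]
  rw [← pow_mul, ← pow_mul, mul_comm i q]
  rfl

theorem l_tor (h1 : L_EXP) (h2 : L_ISO) (h3 : L_ROU) : L_TOR := by
  intro p _ k _ _ _ hne L K M M' Ω _ _ _ _ _ _ _ _ _ _ _ _ m n δ δ₁ P hP hL T₂ B₂ hBT hT₂ hB₂ hg hNo
  classical
  obtain ⟨ρ⟩ := hne
  have hp : p.Prime := Fact.out
  have hk : CharZero k := charZero_of_injective_algebraMap (algebraMap ℚ_[p] k).injective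
  obtain ⟨q', b, hq', hcop, hb, hexp⟩ := h1 p k M' T₂
  have hext : ∀ τ' : B₂, ∃ τ : Ω →+* k, τ.comp (algebraMap M' Ω) = τ' := fun τ' ↦
    extend_closure ρ (τ' : M' →+* k)
  choose te hte using hext
  have hN : ∀ τ' : B₂, ∃ (s : Ω →+* Ω) (r i : ℕ), (∀ x, ‖te τ' (s x)‖ = ‖te τ' x‖) ∧
    (∀ x : M', s (algebraMap M' Ω x) = algebraMap M' Ω ((δ₁ ^ r) x)) ∧
    (∀ ξ : Ω, ξ ^ p = 1 → s ξ = ξ ^ i) ∧ IsCoprime P (X ^ r - C (i : ZMod p)) := by
    intro τ'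
    exact hNo (te τ') (by rw [hte τ']; exact τ'.2)
  choose s r i hs1 hs2 hs3 hs4 using hN
  let F : B₂ → ℤ[X] := fun τ' ↦ (X ^ r τ' - C (i τ' : ℤ)) ^ b
  have hfin : Fintype B₂ := Fintype.ofFinite _
  let Q₀ : ℤ[X] := ∏ τ', F τ'
  have hcopQ : IsCoprime P (Q₀.map (Int.castRingHom (ZMod p))) := by
    rw [Polynomial.map_prod]
    refine IsCoprime.prod_right fun τ' _ ↦ ?_
    have : (F τ').map (Int.castRingHom (ZMod p)) = (X ^ r τ' - C (i τ' : ZMod p)) ^ b := by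
      simp [F]
    rw [this]
    exact (hs4 τ').pow_right
  obtain ⟨u, v, huv⟩ := hcopQ
  let Q : ℤ[X] := lift v * Q₀
  refine ⟨q', Q, -u, hq', hcop, ?_, ?_⟩
  · rw [Polynomial.map_mul, lift_map]
    rw [← huv]
    ring
  have hQ : ∀ τ' : B₂, ∃ Q₁ : ℤ[X], Q = (X ^ r τ' - C (i τ' : ℤ)) ^ b * Q₁ := by
    intro τ'
    refine ⟨lift v * ∏ σ ∈ Finset.univ.erase τ', F σ, ?_⟩
    change lift v * Q₀ = _
    rw [show Q₀ = F τ' * ∏ σ ∈ Finset.univ.erase τ', F σ from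
      (Finset.mul_prod_erase _ _ (Finset.mem_univ τ')).symm]
    ring
  intro ε hε0 hε1
  have hp1 : (1 / p : ℝ) < 1 := by
    rw [div_lt_one (by exact_mod_cast hp.pos)]
    exact_mod_cast hp.one_lt
  obtain ⟨N₁, hN₁⟩ := exists_pow_lt_of_lt_one (show (0 : ℝ) < (ε ^ p) ^ p ^ b by positivity) hp1
  refine ⟨N₁, ?_⟩
  -- (1)
  have step1 : ∀ z' : M'ˣ, z' ∈ SS L T₂ N₁ → ∀ τ ∈ T₂,
      ‖τ (z' : M') ^ (q' * p ^ b) - 1‖ ≤ (ε ^ p) ^ p ^ b := by
    intro z' hz' τ hτ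
    have e1 := hexp z' (fun σ hσ ↦ (hz' σ hσ).1) τ hτ
    have e2 := h2 p k L (Units.map (τ : M' →* k) z' ^ (q' * p ^ b)) (by
      rw [Units.val_pow_eq_pow_val, Units.coe_map]; exact e1)
    rw [Units.val_pow_eq_pow_val, Units.coe_map, L_pow, norm_mul] at e2
    have e3 : ‖((q' * p ^ b : ℕ) : k)‖ ≤ 1 := IsUltrametricDist.norm_natCast_le_one k _
    have e4 := (hz' τ hτ).2
    calc ‖τ (z' : M') ^ (q' * p ^ b) - 1‖
        = ‖((q' * p ^ b : ℕ) : k)‖ * ‖L.toFun (Units.map (τ : M' →* k) z')‖ := e2.symm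
      _ ≤ 1 * (1 / p : ℝ) ^ N₁ := mul_le_mul e3 e4 (norm_nonneg _) zero_le_one
      _ ≤ _ := by rw [one_mul]; exact hN₁.le
  have hroots : ∀ c : ℕ, ∃ ξ : Ω, IsPrimitiveRoot ξ (p ^ c) := by
    intro c
    have hac : IsAlgClosed Ω := IsAlgClosure.isAlgClosed M'
    have hc0 : CharZero Ω := charZero_of_injective_algebraMap (algebraMap M' Ω).injective
    have hne : NeZero (((p ^ c : ℕ)) : Ω) := ⟨by
      exact_mod_cast (pow_pos hp.pos c).ne'⟩
    exact HasEnoughRootsOfUnity.exists_primitiveRoot Ω (p ^ c)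
  -- (2)
  have step2 : ∀ z' : M'ˣ, z' ∈ SS L T₂ N₁ → ∀ τ' ∈ B₂,
      ‖τ' ((act δ₁ Q z' : M'ˣ) : M') ^ q' - 1‖ ≤ ε ^ p := by
    intro z' hz' τ' hτ'
    obtain ⟨Q₁, hQ₁⟩ := hQ ⟨τ', hτ'⟩
    let t : B₂ := ⟨τ', hτ'⟩
    let Z : ℕ → Ω := fun j ↦
      algebraMap M' Ω ((act δ₁ ((X ^ r t - C (i t : ℤ)) ^ j * Q₁) z' : M'ˣ) ^ q' : M')
    have hte' : ∀ x : M', te t (algebraMap M' Ω x) = τ' x := fun x ↦
      DFunLike.congr_fun (hte t) x
    have hZ := h3 p k Ω (te t) b (i t) hb (hroots b) (s t) (hs1 t) (hs3 t) (ε ^ p)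
      (by positivity) (pow_lt_one₀ hε0.le hε1 hp.ne_zero) Z (by
        change ‖te t (algebraMap M' Ω ((act δ₁ ((X ^ r t - C (i t : ℤ)) ^ 0 * Q₁) z' : M'ˣ) ^ q' : M')
          ^ p ^ b - 1)‖ ≤ _
        rw [pow_zero, one_mul, map_sub, map_one, map_pow, hte', map_pow, ← pow_mul]
        exact step1 _ (SS_act hT₂ _ hz') τ' (hBT hτ')) (by
        intro j
        change algebraMap M' Ω
          ((act δ₁ ((X ^ r t - C (i t : ℤ)) ^ (j + 1) * Q₁) z' : M'ˣ) ^ q' : M') = _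
        rw [pow_succ', mul_assoc, step δ₁ (s t) (r t) (i t) (hs2 t)])
    have e1 : Z b = algebraMap M' Ω ((act δ₁ Q z' : M'ˣ) ^ q' : M') := by
      change algebraMap M' Ω ((act δ₁ ((X ^ r t - C (i t : ℤ)) ^ b * Q₁) z' : M'ˣ) ^ q' : M') = _
      rw [← hQ₁]
    rw [e1, map_sub, map_one, hte', map_pow] at hZ
    exact hZ
  intro x y hxy y₂ hy₂ g τ' hτ'
  have hgT : ∀ τ ∈ T₂, τ.comp ((g : M' →+* M') : M' →+* M') ∈ T₂ := fun τ hτ ↦ (hg g).1 τ hτ
  let G : M'ˣ →* M'ˣ := Units.map ((g : M' →+* M') : M' →* M')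
  have hGup : G (up x) = up x := by
    ext
    exact g.commutes _
  let Y₀ : M'ˣ := G y / y
  have hY₀ : Y₀ ^ p ∈ SS L T₂ N₁ := by
    have h : Y₀ ^ p = G (up x * y ^ p) / (up x * y ^ p) := by
      rw [map_mul, hGup, map_pow, mul_div_mul_left_eq_div, ← div_pow]
    rw [h]
    exact div_mem (SS_map _ hgT hxy) hxy
  obtain ⟨Q₁, hQ₁⟩ := hQ ⟨τ', hτ'⟩
  let t : B₂ := ⟨τ', hτ'⟩
  have hte' : ∀ x : M', te t (algebraMap M' Ω x) = τ' x := fun x ↦
    DFunLike.congr_fun (hte t) x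
  have hGact : ∀ (A : ℤ[X]) (w : M'ˣ), G (act δ₁ A w) = act δ₁ A (G w) := by
    intro A w
    exact act_map (g : M' →+* M') δ₁ δ₁ (fun x ↦ hL.comm g x) A w
  have hfinal : (act δ₁ Q (act δ₁ Q Y₀) : M'ˣ) = G y₂ / y₂ := by
    rw [hy₂, hGact, hGact, ← _root_.map_div, ← _root_.map_div]
  have hfin2 : ((act δ₁ Q (act δ₁ Q Y₀) : M'ˣ) : M') = g (y₂ : M') / y₂ := by
    rw [hfinal, Units.val_div_eq_div_val]; rfl
  rw [← hfin2]
  let A : ℤ[X] := (X ^ r t - C (i t : ℤ)) ^ (b - 1) * Q₁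
  have hA : (X ^ r t - C (i t : ℤ)) * A = Q := by
    rw [hQ₁]
    change (X ^ r t - C (i t : ℤ)) * ((X ^ r t - C (i t : ℤ)) ^ (b - 1) * Q₁) = _
    rw [← mul_assoc, ← pow_succ', Nat.sub_add_cancel hb]
  let Z : ℕ → Ω := fun j ↦ Nat.rec (algebraMap M' Ω ((act δ₁ A (act δ₁ Q Y₀) : M'ˣ) ^ q' : M'))
    (fun _ z ↦ s t z / z ^ i t) j
  have hZ := h3 p k Ω (te t) 1 (i t) le_rfl (hroots 1) (s t) (hs1 t) (hs3 t) ε hε0 hε1 Z (by
      change ‖te t (algebraMap M' Ω ((act δ₁ A (act δ₁ Q Y₀) : M'ˣ) ^ q' : M') ^ p ^ 1 - 1)‖ ≤ _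
      rw [pow_one, map_sub, map_one, map_pow, hte']
      have e := step2 (act δ₁ A (Y₀ ^ p)) (SS_act hT₂ _ hY₀) τ' hτ'
      rw [act_comm, map_pow, map_pow, Units.val_pow_eq_pow_val, map_pow, ← pow_mul] at e
      rw [map_pow, ← pow_mul, mul_comm q' p]
      exact e) (fun j ↦ rfl)
  have e1 : Z 1 = algebraMap M' Ω ((act δ₁ Q (act δ₁ Q Y₀) : M'ˣ) ^ q' : M') := by
    change s t (algebraMap M' Ω ((act δ₁ A (act δ₁ Q Y₀) : M'ˣ) ^ q' : M')) /
      (algebraMap M' Ω ((act δ₁ A (act δ₁ Q Y₀) : M'ˣ) ^ q' : M')) ^ i t = _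
    rw [← step δ₁ (s t) (r t) (i t) (hs2 t), hA]
  rw [e1, map_sub, map_one, hte', map_pow] at hZ
  exact hZ

end Pool.Agent.Helper99.RL
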